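import Pool.Agent.TH899.UG.MS

/-!
# Simultaneous primes `q r_j + 1` for many multipliers from arbitrary sets, at every scale

Let `l ≥ 2` and `ε > 0`. There is `L` such that for every `A` and `η > 0` and all large `x`: given ANY
`4 (l - 1)` finite sets `R_g` of at least `L` positive integers `≤ A` there are `l` of them, `g ∈ S`, such
that for at least `(1 / binomial (4 (l - 1)) l - ε) ∏ |R_g|` of the tuples `(r_g)`, `r_g ∈ R_g`, the `r_g`
are distinct and there are at least `x ^ (1 - η)` integers `q` in `[x, 9 x]` for which all the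
`q r_g + 1` are prime.

Proof: more than a quarter of any number of classes of linear forms are hit by primes, at every scale
(`Pool.Agent.TH899.UG.Uni.exactL`), and Erdos's theorem on complete multipartite hypergraphs.
-/

set_option autoImplicit false

namespace Pool.Agent.Results.MP_d018b2_nt.MultiplierSets

open Filter

theorem result (l : ℕ) (hl : 2 ≤ l) (ε : ℝ) (hε : 0 < ε) : ∃ L : ℕ, ∀ A : ℕ, ∀ η : ℝ, 0 < η →
    ∀ᶠ x : ℕ in atTop, ∀ R : Fin (4 * (l - 1)) → Finset ℕ, (∀ g, L ≤ (R g).card) →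
      (∀ g, ∀ r ∈ R g, 1 ≤ r ∧ r ≤ A) → ∃ S : Finset (Fin (4 * (l - 1))), S.card = l ∧
      (1 / ((4 * (l - 1)).choose l : ℝ) - ε) * ∏ g ∈ S, ((R g).card : ℝ) ≤
        ({r : Fin (4 * (l - 1)) → ℕ | (∀ g ∈ S, r g ∈ R g) ∧ (∀ g, g ∉ S → r g = 0) ∧
          (∀ g ∈ S, ∀ g' ∈ S, g ≠ g' → r g ≠ r g') ∧
          (x : ℝ) ^ (1 - η) ≤ ({q : ℕ | x ≤ q ∧ q ≤ 9 * x ∧
            ∀ g ∈ S, (q * r g + 1).Prime}.ncard : ℝ)}.ncard : ℝ) := by
  classical
  obtain ⟨M, rfl⟩ : ∃ M, l = M + 1 := ⟨l - 1, by omega⟩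
  rw [Nat.add_sub_cancel]
  obtain ⟨L, hL⟩ := Pool.Agent.TH899.UG.MS.ms M (by omega) (min ε 1) (by positivity)
    (min_le_right _ _)
  refine ⟨L, fun A η hη => ?_⟩
  filter_upwards [hL A η hη] with x hx
  intro R hR hRA
  obtain ⟨S, hS, h⟩ := hx R hR hRA
  refine ⟨S, hS, ?_⟩
  have hch : (1 : ℝ) ≤ ((4 * M).choose (M + 1) : ℝ) := by
    have : 0 < (4 * M).choose (M + 1) := Nat.choose_pos (by omega)
    exact_mod_cast this
  have h1 : (1 / ((4 * M).choose (M + 1) : ℝ) - ε) * ∏ g ∈ S, ((R g).card : ℝ) ≤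
      (1 - min ε 1) / ((4 * M).choose (M + 1)) * ∏ g ∈ S, ((R g).card : ℝ) := by
    apply mul_le_mul_of_nonneg_right _ (Finset.prod_nonneg fun _ _ => Nat.cast_nonneg _)
    have h2 : (1 - min ε 1) / ((4 * M).choose (M + 1) : ℝ) =
        1 / ((4 * M).choose (M + 1) : ℝ) - min ε 1 / ((4 * M).choose (M + 1) : ℝ) := by
      rw [sub_div]
    rw [h2]
    have h3 : min ε 1 / ((4 * M).choose (M + 1) : ℝ) ≤ min ε 1 :=
      div_le_self (by positivity) hch
    linarith [min_le_left ε 1]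
  refine (h1.trans h).trans ?_
  rw [← Set.ncard_coe_finset, Nat.cast_le]
  refine Set.ncard_le_ncard ?_ ?_
  · intro r hr
    obtain ⟨h3, h4, h5⟩ := Finset.mem_filter.1 (Finset.mem_coe.1 hr)
    rw [Fintype.mem_piFinset] at h3
    refine ⟨fun g hg => ?_, fun g hg => ?_, h4, h5.trans ?_⟩
    · have := h3 g
      rwa [if_pos hg] at this
    · have := h3 g
      rw [if_neg hg] at this
      exact Finset.mem_singleton.1 this
    · rw [Nat.cast_le]
      unfold Pool.Agent.TH899.UG.MS.cq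
      rw [← Set.ncard_coe_finset]
      refine Set.ncard_le_ncard ?_ ((Set.finite_Iic (9 * x)).subset fun q hq => hq.2.1)
      intro q hq
      obtain ⟨h6, h7⟩ := Finset.mem_filter.1 (Finset.mem_coe.1 hq)
      exact ⟨(Finset.mem_Icc.1 h6).1, (Finset.mem_Icc.1 h6).2, h7⟩
  · refine (Finset.finite_toSet (Fintype.piFinset
      (fun g => if g ∈ S then R g else {0}))).subset ?_
    rintro r ⟨h3, h4, -⟩
    refine Finset.mem_coe.2 (Fintype.mem_piFinset.2 fun g => ?_)
    by_cases hg : g ∈ S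
    · rw [if_pos hg]; exact h3 g hg
    · rw [if_neg hg]; exact Finset.mem_singleton.2 (h4 g hg)

end Pool.Agent.Results.MP_d018b2_nt.MultiplierSets
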